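import Mathlib
import Pool.Agent.H770R2.Spec.Props

set_option autoImplicit false

open Filter Topology

namespace H770R2.Spec

theorem liou_aux {R : Type*} [NormedRing R] [NormedAlgebra ℂ R] [CompleteSpace R] (q : R) (K : ℝ)
    (r : ℂ → R) (h1 : ∀ w : ℂ, w ≠ -1 → r w * (1 + w • q) = 1)
    (h2 : ∀ w : ℂ, w ≠ -1 → (1 + w • q) * r w = 1)
    (hK : ∀ w : ℂ, w ≠ -1 → ‖r w‖ ≤ K * max 1 (1 / ‖1 + w‖)) : q * q = q := by
  have hrinv : ∀ w : ℂ, w ≠ -1 → r w = Ring.inverse (1 + w • q) := by
    intro w hw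
    have hu : (⟨1 + w • q, r w, h2 w hw, h1 w hw⟩ : Rˣ).val = 1 + w • q := rfl
    have := Ring.inverse_unit (⟨1 + w • q, r w, h2 w hw, h1 w hw⟩ : Rˣ)
    rw [hu] at this
    rw [this]
    rfl
  set F : ℂ → R := fun w => (q - q * q) * r w with hF
  have hr' : ∀ w : ℂ, w ≠ -1 → r w = 1 - w • (q * r w) := by
    intro w hw
    have := h2 w hw
    rw [add_mul, one_mul, smul_mul_assoc] at this
    rw [eq_sub_iff_add_eq, this]
  have hdiff : DifferentiableOn ℂ F (Set.univ \ {(-1 : ℂ)}) := by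
    intro w hw
    have hw1 : w ≠ -1 := by simpa using hw
    have hev : F =ᶠ[𝓝 w] fun w => (q - q * q) * Ring.inverse (1 + w • q) := by
      filter_upwards [isOpen_ne.mem_nhds hw1] with v hv
      rw [hF]
      simp only
      rw [hrinv v hv]
    have hd : DifferentiableAt ℂ (fun w : ℂ => (q - q * q) * Ring.inverse (1 + w • q)) w := by
      have hi : DifferentiableAt ℂ (Ring.inverse : R → R) (1 + w • q) := by
        have := differentiableAt_inverse (𝕜 := ℂ)
          (⟨1 + w • q, r w, h2 w hw1, h1 w hw1⟩ : Rˣ).isUnit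
        exact this
      have hg : DifferentiableAt ℂ (fun w : ℂ => 1 + w • q) w :=
        (differentiableAt_id.smul_const q).const_add 1
      exact (hi.comp w hg).const_mul _
    exact (hev.differentiableAt_iff.2 hd).differentiableWithinAt
  have hnear : ∀ w : ℂ, w ≠ -1 → ‖1 + w‖ ≤ 1 → ‖F w‖ ≤ ‖q‖ + ‖q * q‖ * |K| := by
    intro w hw hle
    have e : F w = q - (1 + w) • (q * q * r w) := by
      have h := hr' w hw
      rw [hF]
      simp only
      have e1 : (q - q * q) * r w = q * r w - q * q * r w := by rw [sub_mul]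
      rw [e1]
      have e2 : q * r w = q - w • (q * q * r w) := by
        conv_lhs => rw [h]
        rw [mul_sub, mul_one, mul_smul_comm, mul_assoc]
      rw [e2, add_smul, one_smul]
      abel
    rw [e]
    refine (norm_sub_le _ _).trans (add_le_add le_rfl ?_)
    rw [norm_smul]
    have hpos : 0 < ‖1 + w‖ := by
      rw [norm_pos_iff]
      intro h
      apply hw
      rw [eq_neg_iff_add_eq_zero, add_comm, h]
    have h3 : ‖r w‖ ≤ |K| * (1 / ‖1 + w‖) := by
      refine (hK w hw).trans ?_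
      rw [max_eq_right (by rw [le_div_iff₀ hpos, one_mul]; exact hle)]
      exact mul_le_mul_of_nonneg_right (le_abs_self K) (by positivity)
    calc ‖1 + w‖ * ‖q * q * r w‖ ≤ ‖1 + w‖ * (‖q * q‖ * (|K| * (1 / ‖1 + w‖))) := by
          apply mul_le_mul_of_nonneg_left _ hpos.le
          exact (norm_mul_le _ _).trans (mul_le_mul_of_nonneg_left h3 (norm_nonneg _))
      _ = ‖q * q‖ * |K| := by field_simp
  have hrfar : ∀ w : ℂ, w ≠ -1 → 1 ≤ ‖1 + w‖ → ‖r w‖ ≤ |K| := by
    intro w hw hle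
    refine (hK w hw).trans ?_
    have : max 1 (1 / ‖1 + w‖) = 1 := by
      apply max_eq_left
      rw [div_le_one (by linarith)]
      exact hle
    rw [this, mul_one]
    exact le_abs_self K
  have hb : BddAbove (norm ∘ F '' (Set.univ \ {(-1 : ℂ)})) := by
    refine ⟨max (‖q‖ + ‖q * q‖ * |K|) (‖q - q * q‖ * |K|), ?_⟩
    rintro _ ⟨w, hw, rfl⟩
    have hw1 : w ≠ -1 := by simpa using hw
    rcases le_total ‖1 + w‖ 1 with hle | hle
    · exact (hnear w hw1 hle).trans (le_max_left _ _)
    · refine le_trans ?_ (le_max_right _ _)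
      exact (norm_mul_le _ _).trans (mul_le_mul_of_nonneg_left (hrfar w hw1 hle) (norm_nonneg _))
  have hD := Complex.differentiableOn_update_limUnder_of_bddAbove (c := (-1 : ℂ))
    (Filter.univ_mem) hdiff hb
  rw [differentiableOn_univ] at hD
  set G := Function.update F (-1) (limUnder (𝓝[≠] (-1 : ℂ)) F) with hG
  have hlim : Tendsto G (cocompact ℂ) (𝓝 0) := by
    have hbd : ∀ᶠ w in cocompact ℂ, ‖G w‖ ≤ (‖1 - q‖ * (‖(1 : R)‖ + |K|)) * ‖w‖⁻¹ := by
      have h := (tendsto_norm_cocompact_atTop (E := ℂ)).eventually (eventually_ge_atTop 2)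
      filter_upwards [h] with w hw
      have hw1 : w ≠ -1 := by
        rintro rfl
        norm_num at hw
      have hw0 : w ≠ 0 := by
        rintro rfl
        norm_num at hw
      have hle : 1 ≤ ‖1 + w‖ := by
        have := norm_sub_norm_le w (-1 : ℂ)
        rw [norm_neg, norm_one, sub_neg_eq_add, add_comm w 1] at this
        linarith
      have e : F w = (1 - q) * (w⁻¹ • (1 - r w)) := by
        have h := hr' w hw1
        have e1 : q * r w = w⁻¹ • (1 - r w) := by
          have : 1 - r w = w • (q * r w) := by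
            conv_lhs => rw [h]
            abel
          rw [this, smul_smul, inv_mul_cancel₀ hw0, one_smul]
        rw [← e1, hF]
        simp only
        rw [sub_mul, sub_mul, one_mul, mul_assoc]
      rw [hG, Function.update_of_ne hw1, e]
      calc ‖(1 - q) * (w⁻¹ • (1 - r w))‖ ≤ ‖1 - q‖ * ‖w⁻¹ • (1 - r w)‖ := norm_mul_le _ _
        _ = ‖1 - q‖ * (‖w‖⁻¹ * ‖1 - r w‖) := by rw [norm_smul, norm_inv]
        _ ≤ ‖1 - q‖ * (‖w‖⁻¹ * (‖(1 : R)‖ + |K|)) := by
            apply mul_le_mul_of_nonneg_left _ (norm_nonneg _)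
            apply mul_le_mul_of_nonneg_left _ (by positivity)
            exact (norm_sub_le _ _).trans (add_le_add le_rfl (hrfar w hw1 hle))
        _ = (‖1 - q‖ * (‖(1 : R)‖ + |K|)) * ‖w‖⁻¹ := by ring
    have h0 : Tendsto (fun w : ℂ => (‖1 - q‖ * (‖(1 : R)‖ + |K|)) * ‖w‖⁻¹) (cocompact ℂ) (𝓝 0) := by
      have := (tendsto_inv_atTop_zero.comp (tendsto_norm_cocompact_atTop (E := ℂ))).const_mul
        (‖1 - q‖ * (‖(1 : R)‖ + |K|))
      simpa using this
    exact squeeze_zero_norm' hbd h0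
  have hG0 := hD.apply_eq_of_tendsto_cocompact 0 hlim
  have h01 : (0 : ℂ) ≠ -1 := by norm_num
  have hr0 : r 0 = 1 := by
    have := h1 0 h01
    simpa using this
  rw [hG, Function.update_of_ne h01, hF] at hG0
  simp only [hr0, mul_one] at hG0
  exact (sub_eq_zero.1 hG0).symm

theorem prove_liou : P_liou := by
  intro R _ _ _ q K h
  choose r hr using fun w : {w : ℂ // w ≠ -1} => h w.1 w.2
  refine liou_aux q K (fun w => if hw : w ≠ -1 then r ⟨w, hw⟩ else 0) ?_ ?_ ?_
  · intro w hw
    simp only [dif_pos hw]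
    exact (hr ⟨w, hw⟩).1
  · intro w hw
    simp only [dif_pos hw]
    exact (hr ⟨w, hw⟩).2.1
  · intro w hw
    simp only [dif_pos hw]
    rw [one_div]
    exact (hr ⟨w, hw⟩).2.2

end H770R2.Spec
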